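import Mathlib
import Pool.Agent.Q261.HypMain

/-!
# MP_284f77_nt, Q1: `v₂(u(n)) ≥ v₂((2n+1)!)`

The generating function of `u(n) / (2n+1)!` is the quotient
`₂F₁(3/4,3/4;3/2;4t) / ₂F₁(1/4,1/4;1/2;4t)` whose 2-adic integrality is proved in
`Pool.Agent.Q261.HypMain` (the case `a = b = c = d = e = f = 0` of that module's theorem).
-/

namespace Pool.Agent.Results.MP_284f77_nt.TwoIntegral

open Finset PowerSeries

/-- `Π₁(N) = ∏_{j=1}^{N} (4j-1)²` -/
def P1 (N : ℕ) : ℤ := ∏ j ∈ range N, (4 * ((j : ℤ) + 1) - 1) ^ 2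

/-- `Π₃(N) = ∏_{j=1}^{N} (4j-3)²` -/
def P3 (N : ℕ) : ℤ := ∏ j ∈ range N, (4 * ((j : ℤ) + 1) - 3) ^ 2

/-- The sequence `u(n) = Π₁(n) - ∑_{m<n} C(2n+1,2m+1) Π₃(n-m) u(m)`; for `n = 0` the sum is empty
and `u(0) = 1`. -/
def u (n : ℕ) : ℤ :=
  P1 n - ∑ m : Fin n, ((2 * n + 1).choose (2 * (m : ℕ) + 1) : ℤ) * P3 (n - m) * u m
termination_by n
decreasing_by exact m.2

theorem u_eq (n : ℕ) :
    u n = P1 n - ∑ m ∈ range n, ((2 * n + 1).choose (2 * m + 1) : ℤ) * P3 (n - m) * u m := by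
  rw [u, Fin.sum_univ_eq_sum_range
    (fun m => ((2 * n + 1).choose (2 * m + 1) : ℤ) * P3 (n - m) * u m)]

lemma hc3 (n : ℕ) : Q261.HypSer.hc 3 3 3 n = (P1 n : ℚ) / ((2 * n + 1).factorial : ℚ) := by
  induction n with
  | zero => simp [Q261.HypSer.hc_zero, P1]
  | succ n ih =>
    have h := Q261.HypSer.hc_succ 3 3 3 n (by positivity)
    have h1 : P1 (n + 1) = P1 n * (4 * ((n : ℤ) + 1) - 1) ^ 2 := prod_range_succ _ _
    have h2 : (((2 * (n + 1) + 1).factorial : ℕ) : ℚ) =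
        (2 * n + 3) * (2 * n + 2) * ((2 * n + 1).factorial : ℚ) := by
      rw [show 2 * (n + 1) + 1 = (2 * n + 1) + 1 + 1 by ring, Nat.factorial_succ,
        Nat.factorial_succ]
      push_cast
      ring
    have h3 : (((2 * n + 1).factorial : ℕ) : ℚ) ≠ 0 := by exact_mod_cast Nat.factorial_ne_zero _
    have h4 : (2 * (3 + 2 * (n : ℚ)) * (n + 1)) ≠ 0 := by positivity
    apply mul_left_cancel₀ h4
    rw [h, ih, h1, h2]
    push_cast
    field_simp
    ring

lemma hc1 (n : ℕ) : Q261.HypSer.hc 1 1 1 n = (P3 n : ℚ) / ((2 * n).factorial : ℚ) := by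
  induction n with
  | zero => simp [Q261.HypSer.hc_zero, P3]
  | succ n ih =>
    have h := Q261.HypSer.hc_succ 1 1 1 n (by positivity)
    have h1 : P3 (n + 1) = P3 n * (4 * ((n : ℤ) + 1) - 3) ^ 2 := prod_range_succ _ _
    have h2 : (((2 * (n + 1)).factorial : ℕ) : ℚ) =
        (2 * n + 2) * (2 * n + 1) * ((2 * n).factorial : ℚ) := by
      rw [show 2 * (n + 1) = (2 * n) + 1 + 1 by ring, Nat.factorial_succ,
        Nat.factorial_succ]
      push_cast
      ring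
    have h3 : (((2 * n).factorial : ℕ) : ℚ) ≠ 0 := by exact_mod_cast Nat.factorial_ne_zero _
    have h4 : (2 * (1 + 2 * (n : ℚ)) * (n + 1)) ≠ 0 := by positivity
    apply mul_left_cancel₀ h4
    rw [h, ih, h1, h2]
    push_cast
    field_simp
    ring

/-- `∑ u(n) / (2n+1)! t^n` -/
noncomputable def U : ℚ⟦X⟧ := mk fun n => (u n : ℚ) / ((2 * n + 1).factorial : ℚ)

lemma D_mul_U : Q261.HypSer.F 1 1 1 * U = Q261.HypSer.F 3 3 3 := by
  ext n
  rw [mul_comm, coeff_mul, Finset.Nat.sum_antidiagonal_eq_sum_range_succ_mk,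
    Q261.HypSer.coeff_F, hc3]
  have h3 : (((2 * n + 1).factorial : ℕ) : ℚ) ≠ 0 := by exact_mod_cast Nat.factorial_ne_zero _
  rw [eq_div_iff h3, sum_mul]
  have hterm : ∀ m ∈ range (n + 1), coeff m U * coeff (n - m) (Q261.HypSer.F 1 1 1) *
      ((2 * n + 1).factorial : ℚ) =
      ((2 * n + 1).choose (2 * m + 1) : ℚ) * P3 (n - m) * u m := by
    intro m hm
    rw [mem_range] at hm
    rw [Q261.HypSer.coeff_F, hc1, U, coeff_mk]
    have hc := Nat.choose_mul_factorial_mul_factorial (n := 2 * n + 1) (k := 2 * m + 1) (by omega)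
    rw [show 2 * n + 1 - (2 * m + 1) = 2 * (n - m) by omega] at hc
    rw [← hc]
    have h5 : (((2 * m + 1).factorial : ℕ) : ℚ) ≠ 0 := by exact_mod_cast Nat.factorial_ne_zero _
    have h6 : (((2 * (n - m)).factorial : ℕ) : ℚ) ≠ 0 := by
      exact_mod_cast Nat.factorial_ne_zero _
    push_cast
    field_simp
  rw [sum_congr rfl hterm, sum_range_succ]
  have hu := u_eq n
  have hu' : (u n : ℚ) = (P1 n : ℚ) -
      ∑ m ∈ range n, ((2 * n + 1).choose (2 * m + 1) : ℚ) * P3 (n - m) * u m := by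
    rw [hu]; push_cast; rfl
  rw [Nat.choose_self, Nat.sub_self]
  have h0 : P3 0 = 1 := by simp [P3]
  rw [h0]
  push_cast
  linarith

/-- **Q1.** For every `n ≥ 0` the rational number `u(n) / (2n+1)!` lies in `ℤ₂` (odd
denominator), i.e. the power of `2` in `(2n+1)!` divides `u(n)`. -/
theorem result (n : ℕ) :
    Odd ((u n : ℚ) / ((2 * n + 1).factorial : ℚ)).den ∧
      (2 : ℤ) ^ padicValNat 2 (2 * n + 1).factorial ∣ u n := by
  have hden : Odd ((u n : ℚ) / ((2 * n + 1).factorial : ℚ)).den := by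
    have h := Q261.HypMain.main 0 0 0 0 0 0
    norm_num at h
    have hD : constantCoeff (Q261.HypSer.F 1 1 1) ≠ 0 := by
      rw [Q261.HypSer.const_F]; exact one_ne_zero
    have hU : Q261.HypSer.F 3 3 3 * (Q261.HypSer.F 1 1 1)⁻¹ = U := by
      rw [← D_mul_U, mul_comm (Q261.HypSer.F 1 1 1) U, mul_assoc, PowerSeries.mul_inv_cancel _ hD,
        mul_one]
    rw [hU] at h
    have h2 := h n
    rw [U, coeff_mk] at h2
    exact h2
  refine ⟨hden, ?_⟩
  set q : ℚ := (u n : ℚ) / ((2 * n + 1).factorial : ℚ) with hq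
  have h3 : (((2 * n + 1).factorial : ℕ) : ℚ) ≠ 0 := by exact_mod_cast Nat.factorial_ne_zero _
  have h1 : u n * q.den = q.num * ((2 * n + 1).factorial : ℤ) := by
    have h2 : (u n : ℚ) = q * ((2 * n + 1).factorial : ℚ) := by
      rw [hq]; field_simp
    have h4 : (q.num : ℚ) = q * q.den := (Rat.mul_den_eq_num q).symm
    have : (u n : ℚ) * (q.den : ℚ) = (q.num : ℚ) * ((2 * n + 1).factorial : ℚ) := by
      rw [h4, h2]; ring
    exact_mod_cast this
  have h5 : (2 : ℤ) ^ padicValNat 2 (2 * n + 1).factorial ∣ u n * q.den := by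
    rw [h1]
    apply Dvd.dvd.mul_left
    exact_mod_cast pow_padicValNat_dvd
  have h6 : IsCoprime ((2 : ℤ) ^ padicValNat 2 (2 * n + 1).factorial) (q.den : ℤ) := by
    apply IsCoprime.pow_left
    have := (Nat.coprime_two_left.mpr hden)
    exact_mod_cast Nat.isCoprime_iff_coprime.mpr this
  exact h6.dvd_of_dvd_mul_right h5

end Pool.Agent.Results.MP_284f77_nt.TwoIntegral
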